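import Pool.Agent.H21.BS.TB

/-!
# A Bessel inequality over many levels: inner product with a sum of exponentials
-/

set_option autoImplicit false

open Finset Pool.Agent.H6.N4D Pool.Agent.H21.BS

namespace Pool.Agent.H81.BS

/-- a sum over a window as a sum over its subwindows -/
theorem sum_sub (h : ℕ → ℂ) (a T m : ℕ) :
    ∑ x ∈ range (T * m), h (a + x) = ∑ k ∈ range T, ∑ x ∈ range m, h (a + k * m + x) := by
  induction T with
  | zero => simp
  | succ T ih =>
    rw [Nat.succ_mul, Finset.sum_range_add, ih, Finset.sum_range_succ]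
    congr 1
    refine Finset.sum_congr rfl fun x _ => ?_
    rw [add_assoc]

/-- **inner product with a sum of exponentials** -/
theorem pf_FIP (hSUB : T_SUB) : T_FIP := by
  intro W
  obtain ⟨C, hC, hS⟩ := hSUB W
  refine ⟨Real.sqrt C, Real.sqrt_nonneg _, ?_⟩
  intro P κ V s T R F hV hs hsP hκs hN hF
  choose! b β hbβ using hF
  have hs1 : (1 : ℝ) ≤ s := by exact_mod_cast hs
  have hs0 : (0 : ℝ) < s := by linarith
  -- the correlations
  obtain ⟨A, hA⟩ : ∃ A : Fin R → ℕ → ℝ, A = fun r k => ‖av (V.a + k * s ^ 2) (s ^ 2) fun n =>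
    V.om n * starRingEnd ℂ (ee (β k r * n) * (1 : ℂ))‖ := ⟨_, rfl⟩
  have hA2 : ∀ r, ∑ k ∈ range T, A r k ^ 2 ≤ C * T / Real.sqrt s := by
    intro r
    have := hS P κ V s T (fun k => β k r) (fun _ _ => 1) hV hs hsP hκs hN
      (fun k _ => ⟨fun _ => by simp, by simp⟩)
    rw [hA]
    exact this
  have hA0 : ∀ r k, 0 ≤ A r k := by
    intro r k
    rw [hA]
    exact norm_nonneg _
  have hA1 : ∀ r, ∑ k ∈ range T, A r k ≤ Real.sqrt C * T * (s : ℝ) ^ (-(1 / 5) : ℝ) := by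
    intro r
    have h1 := sq_sum_le_card_mul_sum_sq (s := range T) (f := A r)
    rw [Finset.card_range] at h1
    have h2 : (∑ k ∈ range T, A r k) ^ 2 ≤ (T : ℝ) * (C * T / Real.sqrt s) :=
      h1.trans (mul_le_mul_of_nonneg_left (hA2 r) (Nat.cast_nonneg _))
    have h3 : 0 ≤ Real.sqrt C * T * (s : ℝ) ^ (-(1 / 5) : ℝ) := by positivity
    rw [← pow_le_pow_iff_left₀ (Finset.sum_nonneg fun k _ => hA0 r k) h3 (two_ne_zero)]
    refine h2.trans ?_
    have e1 : (Real.sqrt C * T * (s : ℝ) ^ (-(1 / 5) : ℝ)) ^ 2 =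
        C * (T : ℝ) ^ 2 * (s : ℝ) ^ (-(2 / 5) : ℝ) := by
      rw [mul_pow, mul_pow, Real.sq_sqrt hC, ← Real.rpow_natCast ((s : ℝ) ^ (-(1 / 5) : ℝ)) 2,
        ← Real.rpow_mul hs0.le]
      norm_num
    have e2 : (T : ℝ) * (C * T / Real.sqrt s) = C * (T : ℝ) ^ 2 * (s : ℝ) ^ (-(1 / 2) : ℝ) := by
      rw [Real.sqrt_eq_rpow, Real.rpow_neg hs0.le]
      field_simp
    rw [e1, e2]
    refine mul_le_mul_of_nonneg_left ?_ (by positivity)
    exact Real.rpow_le_rpow_of_exponent_le hs1 (by norm_num)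
  -- one subwindow
  have hsub : ∀ k ∈ range T, ‖∑ x ∈ range (s ^ 2), F (V.a + k * s ^ 2 + x) *
      starRingEnd ℂ (V.om (V.a + k * s ^ 2 + x))‖ ≤ (s : ℝ) ^ 2 * ∑ r, A r k := by
    intro k hk
    have hk' := Finset.mem_range.1 hk
    have h1 : ∑ x ∈ range (s ^ 2), F (V.a + k * s ^ 2 + x) *
        starRingEnd ℂ (V.om (V.a + k * s ^ 2 + x)) =
        ∑ r, b k r * ∑ x ∈ range (s ^ 2), ee (β k r * ((V.a + k * s ^ 2 + x : ℕ) : ℝ)) *
          starRingEnd ℂ (V.om (V.a + k * s ^ 2 + x)) := by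
      have h2 : ∀ x ∈ range (s ^ 2), F (V.a + k * s ^ 2 + x) *
          starRingEnd ℂ (V.om (V.a + k * s ^ 2 + x)) =
          ∑ r, b k r * (ee (β k r * ((V.a + k * s ^ 2 + x : ℕ) : ℝ)) *
            starRingEnd ℂ (V.om (V.a + k * s ^ 2 + x))) := by
        intro x hx
        rw [(hbβ k hk').2 x (Finset.mem_range.1 hx), Finset.sum_mul]
        refine Finset.sum_congr rfl fun r _ => ?_
        ring
      rw [Finset.sum_congr rfl h2, Finset.sum_comm]
      refine Finset.sum_congr rfl fun r _ => ?_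
      rw [Finset.mul_sum]
    rw [h1, Finset.mul_sum]
    refine (norm_sum_le _ _).trans (Finset.sum_le_sum fun r _ => ?_)
    rw [norm_mul]
    have h3 : ‖∑ x ∈ range (s ^ 2), ee (β k r * ((V.a + k * s ^ 2 + x : ℕ) : ℝ)) *
        starRingEnd ℂ (V.om (V.a + k * s ^ 2 + x))‖ = (s : ℝ) ^ 2 * A r k := by
      rw [hA]
      have h4 : av (V.a + k * s ^ 2) (s ^ 2) (fun n =>
          V.om n * starRingEnd ℂ (ee (β k r * n) * (1 : ℂ))) * ((s : ℂ) ^ 2) =
          starRingEnd ℂ (∑ x ∈ range (s ^ 2), ee (β k r * ((V.a + k * s ^ 2 + x : ℕ) : ℝ)) *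
            starRingEnd ℂ (V.om (V.a + k * s ^ 2 + x))) := by
        unfold av
        have hsc : ((s ^ 2 : ℕ) : ℂ) ≠ 0 := by
          have : s ^ 2 ≠ 0 := pow_ne_zero _ (by omega)
          exact_mod_cast this
        rw [← Nat.cast_pow, div_mul_cancel₀ _ hsc, map_sum]
        refine Finset.sum_congr rfl fun x _ => ?_
        beta_reduce
        rw [mul_one, map_mul, Complex.conj_conj, mul_comm]
      have h5 := congrArg (fun z : ℂ => ‖z‖) h4
      simp only [norm_mul, RCLike.norm_conj, norm_pow, Complex.norm_natCast] at h5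
      rw [← h5, mul_comm]
    rw [h3]
    have h6 : 0 ≤ (s : ℝ) ^ 2 * A r k := mul_nonneg (by positivity) (hA0 r k)
    have h7 := mul_le_mul_of_nonneg_right ((hbβ k hk').1 r) h6
    rwa [one_mul] at h7
  rw [hN, sum_sub (fun n => F n * starRingEnd ℂ (V.om n)) V.a T (s ^ 2)]
  refine (norm_sum_le _ _).trans ((Finset.sum_le_sum hsub).trans ?_)
  rw [← Finset.mul_sum, Finset.sum_comm]
  have h8 : ∑ r : Fin R, ∑ k ∈ range T, A r k ≤
      (R : ℝ) * (Real.sqrt C * T * (s : ℝ) ^ (-(1 / 5) : ℝ)) := by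
    refine (Finset.sum_le_sum fun r _ => hA1 r).trans (le_of_eq ?_)
    rw [Finset.sum_const, Finset.card_univ, Fintype.card_fin, nsmul_eq_mul]
  refine (mul_le_mul_of_nonneg_left h8 (by positivity)).trans (le_of_eq ?_)
  push_cast
  ring

end Pool.Agent.H81.BS
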