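import Pool.Agent.H21.BS.TB

/-!
# A Bessel inequality over many levels: two primes at the same point
-/

set_option autoImplicit false

open Finset Pool.Agent.H6.N4D Pool.Agent.H21.BS

namespace Pool.Agent.H81.BS

theorem norm_DD_le (q n : ℕ) : ‖DD q n‖ ≤ MD q n := by
  unfold DD MD
  refine (norm_sub_le _ _).trans ?_
  split_ifs
  · simp
  · simp

theorem norm_DD_sq (q n : ℕ) :
    ‖DD q n‖ ^ 2 = 1 + if q ∣ n then ((q : ℝ) ^ 2 - 2 * q) else 0 := by
  unfold DD
  split_ifs
  · have h1 : ((q : ℂ) - 1) = (((q : ℝ) - 1 : ℝ) : ℂ) := by push_cast; ring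
    rw [h1, Complex.norm_real, Real.norm_eq_abs, sq_abs]
    ring
  · simp

theorem sum_ind (N a m : ℕ) (c : ℝ) :
    ∑ x ∈ range N, (if m ∣ a + x then c else 0) =
      c * ((range N).filter fun x => m ∣ a + x).card := by
  rw [← Finset.sum_filter, Finset.sum_const, nsmul_eq_mul, mul_comm]

/-- the number of multiples of `m` -/
theorem card_dvd (hCNT : T_CNT) (N a m : ℕ) (hm : 1 ≤ m) :
    (((range N).filter fun x => m ∣ a + x).card : ℝ) ≤ (N : ℝ) / m + 1 := by
  refine hCNT N m _ hm (Finset.filter_subset _ _) ?_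
  intro x hx y hy
  rw [Finset.mem_filter] at hx hy
  have h1 : (m : ℤ) ∣ ((a + x : ℕ) : ℤ) := Int.natCast_dvd_natCast.2 hx.2
  have h2 : (m : ℤ) ∣ ((a + y : ℕ) : ℤ) := Int.natCast_dvd_natCast.2 hy.2
  have h3 := dvd_sub h1 h2
  push_cast at h3
  have e : (a : ℤ) + x - (a + y) = x - y := by ring
  rwa [e] at h3

theorem mul_card (hCNT : T_CNT) (N a m : ℕ) (hm : 1 ≤ m) :
    (m : ℝ) * ((range N).filter fun x => m ∣ a + x).card ≤ N + m := by
  have h1 := card_dvd hCNT N a m hm
  have hm' : (0 : ℝ) < m := by exact_mod_cast hm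
  have h2 := mul_le_mul_of_nonneg_left h1 hm'.le
  have e : (m : ℝ) * ((N : ℝ) / m + 1) = N + m := by field_simp
  rwa [e] at h2

/-- **two primes at the same point** -/
theorem pf_PR2 (hPRD : T_PRD) (hCNT : T_CNT) : T_PR2 := by
  intro N a κ α q p hq hp hqN hpN hκ hκ1 hN
  have hq2 : (2 : ℝ) ≤ q := by exact_mod_cast hq.two_le
  have hp2 : (2 : ℝ) ≤ p := by exact_mod_cast hp.two_le
  have hpow : ∀ r : ℕ, r.Prime → r ^ 200 ≤ N → ∀ j ≤ 200, (r : ℝ) ^ j ≤ N := by
    intro r hr hrN j hj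
    have h1 : r ^ j ≤ N := (Nat.pow_le_pow_right hr.pos hj).trans hrN
    exact_mod_cast h1
  have hqN2 := hpow q hq hqN 2 (by norm_num)
  have hpN2 := hpow p hp hpN 2 (by norm_num)
  have hqN1 := hpow q hq hqN 1 (by norm_num)
  have hpN1 := hpow p hp hpN 1 (by norm_num)
  have hqN8 := hpow q hq hqN 8 (by norm_num)
  have hpN8 := hpow p hp hpN 8 (by norm_num)
  rw [pow_one] at hqN1 hpN1
  refine ⟨?_, ?_, ?_⟩
  · rw [Finset.sum_congr rfl fun x _ => norm_DD_sq q (a + x),
      Finset.sum_add_distrib, sum_ind, Finset.sum_const, Finset.card_range, nsmul_eq_mul, mul_one]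
    have h1 := mul_card hCNT N a q hq.one_le
    have h2 := mul_le_mul_of_nonneg_left h1 (by linarith : (0 : ℝ) ≤ (q : ℝ) - 2)
    nlinarith
  · intro hqp
    have hcop : Nat.Coprime q p := (Nat.coprime_primes hq hp).2 hqp
    have hb : ∀ x : ℕ, ‖DD q (a + x)‖ * ‖DD p (a + x)‖ ≤
        (if q * p ∣ a + x then (q : ℝ) * p else 0) + (if q ∣ a + x then (q : ℝ) else 0) +
          (if p ∣ a + x then (p : ℝ) else 0) + 1 := by
      intro x
      have h1 := norm_DD_le q (a + x)
      have h2 := norm_DD_le p (a + x)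
      have h3 : ‖DD q (a + x)‖ * ‖DD p (a + x)‖ ≤ MD q (a + x) * MD p (a + x) :=
        mul_le_mul h1 h2 (norm_nonneg _) ((norm_nonneg _).trans h1)
      refine h3.trans (le_of_eq ?_)
      unfold MD
      have h4 : q * p ∣ a + x ↔ q ∣ a + x ∧ p ∣ a + x :=
        ⟨fun h => ⟨(Dvd.intro _ rfl).trans h, (Dvd.intro_left _ rfl).trans h⟩,
          fun h => hcop.mul_dvd_of_dvd_of_dvd h.1 h.2⟩
      by_cases hqx : q ∣ a + x <;> by_cases hpx : p ∣ a + x <;>
        simp only [h4, hqx, hpx, and_true, and_false, and_self, if_true, if_false] <;> ring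
    refine (Finset.sum_le_sum fun x _ => hb x).trans ?_
    rw [Finset.sum_add_distrib, Finset.sum_add_distrib, Finset.sum_add_distrib, sum_ind, sum_ind,
      sum_ind, Finset.sum_const, Finset.card_range, nsmul_eq_mul, mul_one]
    have c1 := mul_card hCNT N a q hq.one_le
    have c2 := mul_card hCNT N a p hp.one_le
    have c3 := mul_card hCNT N a (q * p) (Nat.mul_pos hq.pos hp.pos)
    push_cast at c3
    nlinarith [sq_nonneg ((q : ℝ) - p)]
  · intro hqp hbad G hG
    have hN0 : (0 : ℝ) < N := by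
      by_contra h
      have h0 : (N : ℝ) = 0 := le_antisymm (not_lt.1 h) (Nat.cast_nonneg _)
      rw [h0, mul_zero] at hN
      linarith
    have hκN : 0 < κ * N := mul_pos hκ hN0
    have key := hPRD 2 ![q, p] (fun _ => 0) (α q - α p) (1 / (2 * κ * N)) 20 a N G
      (by intro j; fin_cases j; exacts [hq, hp])
      (by
        intro i j hij
        fin_cases i <;> fin_cases j
        · rfl
        · exact absurd hij hqp
        · exact absurd hij.symm hqp
        · rfl)
      (by positivity) hG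
      (by
        intro b hb
        have hb0 := hb 0
        have hb1 := hb 1
        by_contra hlt
        rw [not_le] at hlt
        apply hbad
        refine ⟨hqp, -(b 0), -(b 1), fun h => hb0 ((Int.dvd_neg).1 h),
          fun h => hb1 ((Int.dvd_neg).1 h), ?_⟩
        rw [Fin.sum_univ_two] at hlt
        refine le_trans (le_of_eq ?_) hlt.le
        congr 1
        push_cast
        change _ = α q - α p + ((b 0 : ℝ) / (q : ℝ) + (b 1 : ℝ) / (p : ℝ))
        ring)
    have e : ∑ x ∈ range N, (∏ j : Fin 2, DD (![q, p] j) (a + x + 0)) *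
        (ee ((α q - α p) * ((a + x : ℕ) : ℝ)) * G (a + x)) =
        ∑ x ∈ range N, DD q (a + x) * DD p (a + x) *
          (ee ((α q - α p) * ((a + x : ℕ) : ℝ)) * G (a + x)) := by
      refine Finset.sum_congr rfl fun x _ => ?_
      rw [Fin.prod_univ_two]
      rfl
    rw [e, Fin.prod_univ_two] at key
    refine key.trans ?_
    change (1 + 20) * (1 / (2 * (1 / (2 * κ * N))) + ((q : ℝ) * p) ^ 2) ≤ _
    have e2 : 1 / (2 * (1 / (2 * κ * N))) = κ * N := by field_simp
    rw [e2]
    have h1 : ((q : ℝ) * p) ^ 2 ≤ κ * N := by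
      rw [← pow_le_pow_iff_left₀ (by positivity) hκN.le (two_ne_zero)]
      have h2 : (((q : ℝ) * p) ^ 2) ^ 2 ≤ N := by
        nlinarith [sq_nonneg ((q : ℝ) ^ 4 - (p : ℝ) ^ 4)]
      have h3 : (N : ℝ) ≤ (κ * N) ^ 2 := by nlinarith
      exact h2.trans h3
    linarith

end Pool.Agent.H81.BS
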