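import Pool.Agent.H21.BS.TB

/-!
# A Bessel inequality over many levels: products over distinct primes
-/

set_option autoImplicit false

open Finset Pool.Agent.H6.N4D Pool.Agent.H21.BS

namespace Pool.Agent.H81.BS

theorem ee_zero' : ee 0 = 1 := by
  have := ee_int 0
  simpa using this

theorem ee_sum {ι : Type} (s : Finset ι) (f : ι → ℝ) :
    ∏ i ∈ s, ee (f i) = ee (∑ i ∈ s, f i) := by
  classical
  induction s using Finset.induction_on with
  | empty => rw [Finset.prod_empty, Finset.sum_empty, ee_zero']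
  | insert a s ha ih => rw [Finset.prod_insert ha, Finset.sum_insert ha, ee_add, ih]

section

variable {r : ℕ} {q : Fin r → ℕ}

/-- the product of the other primes -/
def Ro (q : Fin r → ℕ) (j : Fin r) : ℤ := ∏ i ∈ univ.erase j, (q i : ℤ)

theorem Ro_mul (j : Fin r) : (q j : ℤ) * Ro q j = ∏ i, (q i : ℤ) :=
  Finset.mul_prod_erase univ (fun i => (q i : ℤ)) (mem_univ j)

/-- the integral form of a sum of fractions -/
theorem frac_int (hq : ∀ j, (q j).Prime) (c : Fin r → ℤ) :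
    (∏ j, (q j : ℝ)) * ∑ j, (c j : ℝ) / q j = ((∑ j, c j * Ro q j : ℤ) : ℝ) := by
  push_cast
  rw [Finset.mul_sum]
  refine Finset.sum_congr rfl fun j _ => ?_
  have h1 : (∏ i, (q i : ℝ)) = q j * (Ro q j : ℝ) := by
    have := Ro_mul (q := q) j
    have h2 := congrArg (fun z : ℤ => (z : ℝ)) this
    push_cast at h2
    exact h2.symm
  have h0 : (q j : ℝ) ≠ 0 := by exact_mod_cast (hq j).ne_zero
  rw [h1]
  field_simp

/-- distinct fractions are not congruent modulo one -/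
theorem frac_unique (hq : ∀ j, (q j).Prime) (hinj : Function.Injective q) (c : Fin r → ℤ)
    (hD : (∏ j, (q j : ℤ)) ∣ ∑ j, c j * Ro q j) (j : Fin r) : (q j : ℤ) ∣ c j := by
  have hp : Prime (q j : ℤ) := Nat.prime_iff_prime_int.1 (hq j)
  have h1 : (q j : ℤ) ∣ ∑ i, c i * Ro q i := by
    refine Dvd.dvd.trans ?_ hD
    exact Finset.dvd_prod_of_mem _ (mem_univ j)
  rw [← Finset.add_sum_erase univ _ (mem_univ j)] at h1
  have h2 : (q j : ℤ) ∣ ∑ i ∈ univ.erase j, c i * Ro q i := by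
    refine Finset.dvd_sum fun i hi => ?_
    refine Dvd.dvd.mul_left ?_ _
    refine Finset.dvd_prod_of_mem (fun i => (q i : ℤ)) ?_
    rw [Finset.mem_erase] at hi ⊢
    exact ⟨hi.1.symm, mem_univ j⟩
  have h3 : (q j : ℤ) ∣ c j * Ro q j := (dvd_add_left h2).1 h1
  rcases hp.dvd_or_dvd h3 with h4 | h4
  · exact h4
  · exfalso
    obtain ⟨i, hi, h5⟩ := hp.exists_mem_finset_dvd h4
    have h6 : q j ∣ q i := Int.natCast_dvd_natCast.1 h5
    have h7 := (Nat.prime_dvd_prime_iff_eq (hq j) (hq i)).1 h6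
    rw [Finset.mem_erase] at hi
    exact hi.1 (hinj h7).symm

/-- at most one fraction is close -/
theorem near_unique (hq : ∀ j, (q j).Prime) (hinj : Function.Injective q) (γ : ℝ)
    (b b' : Fin r → ℕ) (hb : ∀ j, b j < q j) (hb' : ∀ j, b' j < q j)
    (h1 : nd (γ + ∑ j, (b j : ℝ) / q j) < 1 / (2 * ∏ j, (q j : ℝ)))
    (h2 : nd (γ + ∑ j, (b' j : ℝ) / q j) < 1 / (2 * ∏ j, (q j : ℝ))) : b = b' := by
  have hQ : (0 : ℝ) < ∏ j, (q j : ℝ) :=
    Finset.prod_pos fun j _ => by exact_mod_cast (hq j).pos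
  have h3 := nd_sub_le (γ + ∑ j, (b j : ℝ) / q j) (γ + ∑ j, (b' j : ℝ) / q j)
  have e1 : γ + ∑ j, (b j : ℝ) / q j - (γ + ∑ j, (b' j : ℝ) / q j) =
      ∑ j, (((b j : ℤ) - (b' j : ℤ) : ℤ) : ℝ) / q j := by
    push_cast
    rw [add_sub_add_left_eq_sub, ← Finset.sum_sub_distrib]
    refine Finset.sum_congr rfl fun j _ => ?_
    ring
  rw [e1] at h3
  obtain ⟨k, hk⟩ := exists_int (∑ j, (((b j : ℤ) - (b' j : ℤ) : ℤ) : ℝ) / q j)
  rw [← hk] at h3
  have h4 : |(∑ j, (((b j : ℤ) - (b' j : ℤ) : ℤ) : ℝ) / q j) - k| < 1 / ∏ j, (q j : ℝ) := by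
    refine lt_of_le_of_lt h3 ?_
    have e2 : 1 / (2 * ∏ j, (q j : ℝ)) + 1 / (2 * ∏ j, (q j : ℝ)) = 1 / ∏ j, (q j : ℝ) := by
      field_simp
      norm_num
    linarith
  have h5 := frac_int hq fun j => (b j : ℤ) - (b' j : ℤ)
  have h6 : |((∑ j, ((b j : ℤ) - (b' j : ℤ)) * Ro q j : ℤ) : ℝ) - (∏ j, (q j : ℝ)) * k| < 1 := by
    rw [← h5, ← mul_sub, abs_mul, abs_of_pos hQ]
    rw [lt_div_iff₀ hQ] at h4
    linarith
  have h7 : |(∑ j, ((b j : ℤ) - (b' j : ℤ)) * Ro q j) - (∏ j, (q j : ℤ)) * k| < 1 := by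
    have : ((|(∑ j, ((b j : ℤ) - (b' j : ℤ)) * Ro q j) - (∏ j, (q j : ℤ)) * k| : ℤ) : ℝ) < 1 := by
      push_cast
      push_cast at h6
      exact h6
    exact_mod_cast this
  rw [Int.abs_lt_one_iff, sub_eq_zero] at h7
  have h8 := frac_unique hq hinj (fun j => (b j : ℤ) - (b' j : ℤ)) (Dvd.intro _ h7.symm)
  funext j
  obtain ⟨m, hm⟩ := h8 j
  have a1 := hb j
  have a2 := hb' j
  have a3 : ((b j : ℤ) - (b' j : ℤ)) < q j := by omega
  have a4 : -(q j : ℤ) < ((b j : ℤ) - (b' j : ℤ)) := by omega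
  have hqp : (0 : ℤ) < q j := by exact_mod_cast (hq j).pos
  change ((b j : ℤ) - (b' j : ℤ)) = q j * m at hm
  rw [hm] at a3 a4
  have m1 : m < 1 := by nlinarith
  have m2 : -1 < m := by nlinarith
  have m0 : m = 0 := by omega
  rw [m0, mul_zero] at hm
  omega

end

/-- **products over distinct primes** -/
theorem pf_PRD (hESM : T_ESM) (hDQF : T_DQF) : T_PRD := by
  classical
  intro r q o γ δ v a M G hq hinj hδ hG hnd
  have hQ : (0 : ℝ) < ∏ j, (q j : ℝ) :=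
    Finset.prod_pos fun j _ => by exact_mod_cast (hq j).pos
  have hv : 0 ≤ v := (Finset.sum_nonneg fun _ _ => norm_nonneg _).trans hG.2
  obtain ⟨B, hB⟩ : ∃ B : Finset (Fin r → ℕ), B = Fintype.piFinset fun j => Ico 1 (q j) :=
    ⟨_, rfl⟩
  have hBm : ∀ b ∈ B, ∀ j, 1 ≤ b j ∧ b j < q j := by
    intro b hb j
    rw [hB, Fintype.mem_piFinset] at hb
    have := hb j
    rw [Finset.mem_Ico] at this
    exact this
  -- the expansion
  have hexp : ∀ x : ℕ, ∏ j, DD (q j) (a + x + o j) =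
      ∑ b ∈ B, ee (∑ j, (b j : ℝ) / q j * o j) *
        ee ((∑ j, (b j : ℝ) / q j) * ((a + x : ℕ) : ℝ)) := by
    intro x
    rw [Finset.prod_congr rfl fun j _ => hDQF (q j) (a + x + o j) (hq j).one_le,
      Finset.prod_univ_sum, ← hB]
    refine Finset.sum_congr rfl fun b _ => ?_
    rw [ee_sum, ← ee_add]
    congr 1
    rw [Finset.sum_mul, ← Finset.sum_add_distrib]
    refine Finset.sum_congr rfl fun j _ => ?_
    push_cast
    ring
  have htot : ∑ x ∈ range M, (∏ j, DD (q j) (a + x + o j)) *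
      (ee (γ * ((a + x : ℕ) : ℝ)) * G (a + x)) =
      ∑ b ∈ B, ee (∑ j, (b j : ℝ) / q j * o j) *
        ∑ x ∈ range M, ee ((γ + ∑ j, (b j : ℝ) / q j) * ((a + x : ℕ) : ℝ)) * G (a + x) := by
    rw [Finset.sum_congr rfl fun x _ => by rw [hexp x, Finset.sum_mul], Finset.sum_comm]
    refine Finset.sum_congr rfl fun b _ => ?_
    rw [Finset.mul_sum]
    refine Finset.sum_congr rfl fun x _ => ?_
    rw [add_mul, ee_add]
    ring
  rw [htot]
  -- the bounds
  have hndb : ∀ b ∈ B, δ ≤ nd (γ + ∑ j, (b j : ℝ) / q j) := by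
    intro b hb
    have := hnd (fun j => (b j : ℤ)) (fun j hd => by
      have h1 := hBm b hb j
      have h2 := Nat.le_of_dvd (by omega) (Int.natCast_dvd_natCast.1 hd)
      omega)
    push_cast at this
    exact this
  have hS : ∀ b ∈ B, ‖ee (∑ j, (b j : ℝ) / q j * o j) *
      ∑ x ∈ range M, ee ((γ + ∑ j, (b j : ℝ) / q j) * ((a + x : ℕ) : ℝ)) * G (a + x)‖ ≤
      (1 + v) / (2 * nd (γ + ∑ j, (b j : ℝ) / q j)) := by
    intro b hb
    rw [norm_mul, norm_ee, one_mul]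
    exact hESM _ v a M G (lt_of_lt_of_le hδ (hndb b hb)) hG
  refine (norm_sum_le _ _).trans ((Finset.sum_le_sum hS).trans ?_)
  rw [← Finset.sum_filter_add_sum_filter_not B
    (fun b => nd (γ + ∑ j, (b j : ℝ) / q j) < 1 / (2 * ∏ j, (q j : ℝ)))]
  have hnear : ∑ b ∈ B with nd (γ + ∑ j, (b j : ℝ) / q j) < 1 / (2 * ∏ j, (q j : ℝ)),
      (1 + v) / (2 * nd (γ + ∑ j, (b j : ℝ) / q j)) ≤ (1 + v) * (1 / (2 * δ)) := by
    have hc : (B.filter fun b =>
        nd (γ + ∑ j, (b j : ℝ) / q j) < 1 / (2 * ∏ j, (q j : ℝ))).card ≤ 1 := by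
      rw [Finset.card_le_one]
      intro b hb b' hb'
      rw [Finset.mem_filter] at hb hb'
      exact near_unique hq hinj γ b b' (fun j => (hBm b hb.1 j).2) (fun j => (hBm b' hb'.1 j).2)
        hb.2 hb'.2
    have h1 : ∀ b ∈ B.filter (fun b =>
        nd (γ + ∑ j, (b j : ℝ) / q j) < 1 / (2 * ∏ j, (q j : ℝ))),
        (1 + v) / (2 * nd (γ + ∑ j, (b j : ℝ) / q j)) ≤ (1 + v) * (1 / (2 * δ)) := by
      intro b hb
      rw [Finset.mem_filter] at hb
      rw [div_eq_mul_one_div]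
      refine mul_le_mul_of_nonneg_left ?_ (by linarith)
      exact one_div_le_one_div_of_le (by linarith) (by linarith [hndb b hb.1])
    refine (Finset.sum_le_sum h1).trans ?_
    rw [Finset.sum_const, nsmul_eq_mul]
    have h2 : (((B.filter fun b =>
        nd (γ + ∑ j, (b j : ℝ) / q j) < 1 / (2 * ∏ j, (q j : ℝ))).card : ℕ) : ℝ) ≤ 1 := by
      exact_mod_cast hc
    have h3 : (0 : ℝ) ≤ (1 + v) * (1 / (2 * δ)) := by positivity
    nlinarith
  have hfar : ∑ b ∈ B with ¬ nd (γ + ∑ j, (b j : ℝ) / q j) < 1 / (2 * ∏ j, (q j : ℝ)),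
      (1 + v) / (2 * nd (γ + ∑ j, (b j : ℝ) / q j)) ≤ (1 + v) * (∏ j, (q j : ℝ)) ^ 2 := by
    have h1 : ∀ b ∈ B.filter (fun b =>
        ¬ nd (γ + ∑ j, (b j : ℝ) / q j) < 1 / (2 * ∏ j, (q j : ℝ))),
        (1 + v) / (2 * nd (γ + ∑ j, (b j : ℝ) / q j)) ≤ (1 + v) * ∏ j, (q j : ℝ) := by
      intro b hb
      rw [Finset.mem_filter, not_lt] at hb
      have hpos : 0 < nd (γ + ∑ j, (b j : ℝ) / q j) := lt_of_lt_of_le hδ (hndb b hb.1)
      rw [div_le_iff₀ (by linarith), mul_assoc]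
      have h2 : 1 ≤ (∏ j, (q j : ℝ)) * (2 * nd (γ + ∑ j, (b j : ℝ) / q j)) := by
        have h3 := hb.2
        rw [div_le_iff₀ (by linarith)] at h3
        linarith
      nlinarith
    refine (Finset.sum_le_sum h1).trans ?_
    rw [Finset.sum_const, nsmul_eq_mul]
    have h2 : (((B.filter fun b =>
        ¬ nd (γ + ∑ j, (b j : ℝ) / q j) < 1 / (2 * ∏ j, (q j : ℝ))).card : ℕ) : ℝ) ≤
        ∏ j, (q j : ℝ) := by
      have h3 : (B.filter fun b =>
        ¬ nd (γ + ∑ j, (b j : ℝ) / q j) < 1 / (2 * ∏ j, (q j : ℝ))).card ≤ ∏ j, q j := by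
        refine (Finset.card_filter_le _ _).trans ?_
        rw [hB, Fintype.card_piFinset]
        refine Finset.prod_le_prod' fun j _ => ?_
        rw [Nat.card_Ico]
        exact Nat.sub_le _ _
      have h4 : ((∏ j, q j : ℕ) : ℝ) = ∏ j, (q j : ℝ) := by push_cast; rfl
      rw [← h4]
      exact_mod_cast h3
    have h5 : (0 : ℝ) ≤ (1 + v) * ∏ j, (q j : ℝ) := by positivity
    nlinarith [mul_le_mul_of_nonneg_right h2 h5]
  rw [mul_add]
  exact add_le_add hnear hfar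

end Pool.Agent.H81.BS
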